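import Pool.Agent.Helper39.Uct.Goals2

/-!
# Packet NRM: the normalisation lemma
-/

open scoped ComplexOrder

namespace Pool.Agent.Helper77.Uct

open Pool.Agent.Helper39.Uct Pool.Agent.Helper39.Uct.Fib

section

variable {Q : Type} [Group Q] {B : Type} [NonUnitalCStarAlgebra B] {G : Fib Q B}

theorem nz_of_cs (hpf : PF G) (φ : G.Pt) (b x : B) (h : φ (star b * x) ≠ 0) :
    φ (star b * b) ≠ 0 := by
  intro h0
  apply h
  have h1 := hpf.cs φ b x
  rw [h0] at h1
  simp only [Complex.zero_re, zero_mul] at h1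
  have h2 : ‖φ (star b * x)‖ ^ 2 = 0 := le_antisymm h1 (sq_nonneg _)
  exact norm_eq_zero.1 (pow_eq_zero_iff (two_ne_zero) |>.1 h2)

theorem mem_one {q : Q} {x y z : B} (hx : x ∈ G.fib q) (hy : y ∈ G.fib 1) (hz : z ∈ G.fib q) :
    x * y * star z ∈ G.fib 1 := by
  have := G.mul_mem _ _ _ _ (G.mul_mem _ _ _ _ hx hy) (G.star_mem _ _ hz)
  simpa using this

end

theorem nrm : S_PF → S_PE → S_NRM := by
  intro hPF hPE Q _ B _ G hC d A hd hds hfix q hq
  have hpf := hPF Q B G hC
  obtain ⟨b, hb, hdbd⟩ := hq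
  have hbs : star b ∈ G.fib q⁻¹ := G.star_mem _ _ hb
  have hdd : d * d ∈ G.fib 1 := by simpa using G.mul_mem _ _ _ _ hd hd
  have hbb : star b * b ∈ G.fib 1 := by simpa using G.mul_mem _ _ _ _ hbs hb
  have hbb' : b * star b ∈ G.fib 1 := by simpa using G.mul_mem _ _ _ _ hb hbs
  have hd' : b * (d * d) * star b ∈ G.fib 1 := mem_one hb hdd hb
  have hqinv : q⁻¹ ∈ G.M0 d := by
    refine ⟨star b, hbs, ?_⟩
    intro h0
    apply hdbd
    have h1 := congrArg star h0
    rw [star_mul, star_mul, star_star, star_zero, hds.star_eq, ← mul_assoc] at h1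
    exact h1
  refine ⟨b * (d * d) * star b, hd', ?_, ?_, ?_⟩
  · rw [IsSelfAdjoint, star_mul, star_mul, star_star, star_mul, hds.star_eq]
    simp only [mul_assoc]
  · -- `d * d' ≠ 0`
    have hc0 : star (d * b * d) * (d * b * d) = d * (star b * (d * d) * b) * d := by
      rw [star_mul, star_mul, hds.star_eq]
      simp only [mul_assoc]
    have hc0n : star (d * b * d) * (d * b * d) ≠ 0 := by
      intro h0
      exact hdbd (CStarRing.star_mul_self_eq_zero_iff _ |>.1 h0)
    have hmem : star b * (d * d) * b ∈ G.fib 1 := by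
      have := G.mul_mem _ _ _ _ (G.mul_mem _ _ _ _ hbs hdd) hb
      simpa using this
    have hc0m : star (d * b * d) * (d * b * d) ∈ G.fib 1 := by
      rw [hc0]
      have := G.mul_mem _ _ _ _ (G.mul_mem _ _ _ _ hd hmem) hd
      simpa using this
    obtain ⟨φ, hφ⟩ := hPE Q B G hC _ hc0m hc0n
    have hφ0 : φ (star (d * b * d) * (d * b * d)) ≠ 0 := by
      intro h0
      rw [h0, norm_zero] at hφ
      exact hc0n (norm_eq_zero.1 hφ.symm)
    rw [hc0, hpf.mulR φ d hd, hpf.mulL φ d hd] at hφ0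
    have hφd : φ d ≠ 0 := fun h => hφ0 (by rw [h, mul_zero])
    have hφb : φ (star b * (d * d) * b) ≠ 0 := fun h => hφ0 (by rw [h, mul_zero, zero_mul])
    have hφbb : φ (star b * b) ≠ 0 := by
      apply nz_of_cs hpf φ b ((d * d) * b)
      rw [← mul_assoc]
      exact hφb
    obtain ⟨ψ, hψ⟩ := hpf.move φ q b hb hφbb
    have h1 : ψ (d * d) ≠ 0 := by
      intro h0
      have := hψ (d * d)
      rw [h0, zero_mul] at this
      exact hφb this.symm
    have h2 : ψ d ≠ 0 := by
      intro h0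
      apply h1
      rw [hpf.mulL ψ d hd, h0, mul_zero]
    have h3 : ψ (b * (d * d) * star b) ≠ 0 := by
      intro h0
      have h4 := hψ (b * (d * d) * star b)
      rw [h0, zero_mul] at h4
      have h5 : star b * (b * (d * d) * star b) * b = (star b * b) * (d * d) * (star b * b) := by
        simp only [mul_assoc]
      rw [h5, hpf.mulR φ _ hbb, hpf.mulL φ _ hbb, hpf.mulL φ d hd] at h4
      exact mul_ne_zero (mul_ne_zero hφbb (mul_ne_zero hφd hφd)) hφbb h4.symm
    intro h0
    have h6 := hpf.mulL ψ d hd (b * (d * d) * star b)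
    rw [h0] at h6
    have h7 : ψ (0 : B) = 0 := map_zero ψ.toFun
    rw [h7] at h6
    exact mul_ne_zero h2 h3 h6.symm
  · intro ψ hψ
    rw [hpf.mulL ψ d hd] at hψ
    have hψd' : ψ (b * (d * d) * star b) ≠ 0 := fun h => hψ (by rw [h, mul_zero])
    have hψbb : ψ (star (star b) * star b) ≠ 0 := by
      apply nz_of_cs hpf ψ (star b) ((d * d) * star b)
      rw [← mul_assoc, star_star]
      exact hψd'
    obtain ⟨φ, hφ⟩ := hpf.move ψ q⁻¹ (star b) hbs hψbb
    rw [star_star] at hφ hψbb
    have h1 : φ (d * d) ≠ 0 := by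
      intro h0
      have := hφ (d * d)
      rw [h0, zero_mul] at this
      exact hψd' this.symm
    have h2 : φ d ≠ 0 := by
      intro h0
      apply h1
      rw [hpf.mulL φ d hd, h0, mul_zero]
    have h3 : φ (star b * b) = ψ (b * star b) := by
      have h4 := hφ (star b * b)
      have h5 : b * (star b * b) * star b = (b * star b) * (b * star b) := by
        simp only [mul_assoc]
      rw [h5, hpf.mulL ψ _ hbb'] at h4
      exact mul_right_cancel₀ hψbb h4
    have h6 : ∀ y, ψ y * φ (star b * b) = φ (star b * y * b) := by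
      intro y
      have h7 := hφ (star b * y * b)
      have h8 : b * (star b * y * b) * star b = (b * star b) * y * (b * star b) := by
        simp only [mul_assoc]
      rw [h8, hpf.mulR ψ _ hbb', hpf.mulL ψ _ hbb'] at h7
      have h9 := mul_right_cancel₀ hψbb h7
      rw [h9, h3, mul_comm]
    have h3' : φ (star b * b) ≠ 0 := by rw [h3]; exact hψbb
    refine ⟨φ, h2, ?_⟩
    rintro n ⟨hn1, hn2⟩
    refine ⟨hpf.st_conj φ ψ q b hb h3' h6 n hn1, ?_⟩
    intro l hl
    have hl' : q⁻¹ * l * q ∈ A := by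
      have := hfix.2 q⁻¹ hqinv l hl
      simpa using this
    have h10 := hpf.cm_conj φ ψ q b hb h3' h6 n (q⁻¹ * l * q) hn1 (hfix.1 _ hl' φ h2) (hn2 _ hl')
    have h11 : q * (q⁻¹ * l * q) * q⁻¹ = l := by group
    rw [h11] at h10
    exact h10

end Pool.Agent.Helper77.Uct
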